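import Pool.Agent.Helper8.SPV.Stmts
import Pool.Agent.Helper8.SPV.PLib

set_option autoImplicit false

/-! # B2: a map to `E` is determined by the differential and one value -/

namespace Pool.Agent.Helper8.SPV

theorem B2_ne {k K : Type} [Field k] [Field K] [Algebra k K] (T W : K)
    (h : W ^ 2 = T ^ 3 + 1) (ht : Transcendental k T) : W ≠ 0 := by
  rintro rfl
  apply ht
  refine ⟨Polynomial.X ^ 3 + 1, ?_, ?_⟩
  · exact (Polynomial.monic_X_pow_add (n := 3) (by
      rw [Polynomial.degree_one]; norm_num)).ne_zero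
  · simp only [map_add, map_pow, Polynomial.aeval_X, map_one]
    rw [← h]
    ring

theorem B2_der {k K : Type} [Field k] [Field K] [CharZero K] [Algebra k K] (δ : Derivation k K K)
    (T W A : K) (h : W ^ 2 = T ^ 3 + 1) (hW : W ≠ 0) (hA : A = δ T / (2 * W)) :
    δ T = 2 * A * W ∧ δ W = 3 * A * T ^ 2 := by
  have h2 : (2 : K) ≠ 0 := two_ne_zero
  have e1 : δ T = 2 * A * W := by
    rw [hA]
    field_simp
  refine ⟨e1, ?_⟩
  have e2 : δ (W ^ 2) = δ (T ^ 3 + 1) := by rw [h]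
  rw [map_add, Derivation.map_one_eq_zero, add_zero, Derivation.leibniz_pow,
    Derivation.leibniz_pow] at e2
  simp only [smul_eq_mul, nsmul_eq_mul] at e2
  push_cast at e2
  rw [e1] at e2
  have e3 : (2 * W) * δ W = (2 * W) * (3 * A * T ^ 2) := by
    norm_num at e2
    linear_combination e2
  exact mul_left_cancel₀ (mul_ne_zero h2 hW) e3

theorem st_B2 (h1 : ST_PL1) (hd : ST_DER1) (hw : ST_WREG) : ST_B2 := by
  intro k K _ _ _ _ _ hff δ hδ p t0 w0 T W T' W' h h' ht ht' hA hT hT' hW hW'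
  have : CharZero K := charZero_of_injective_algebraMap (algebraMap k K).injective
  have hL := h1 k K hff p
  obtain ⟨-, -, -, d4⟩ := hd k K hff
  obtain ⟨w1, -, -⟩ := hw k K hff δ hδ
  have hAr := w1 T W h ht p
  set A := δ T / (2 * W) with hAdef
  obtain ⟨a1, a2⟩ := B2_der δ T W A h (B2_ne T W h ht) hAdef
  obtain ⟨b1, b2⟩ := B2_der δ T' W' A h' (B2_ne T' W' h' ht') hA
  have u1 : p.Ge 1 (T - T') := by
    have e := Pl.Laws.ge_sub hL ((Pl.Laws.M_iff_ge hL _).1 hT) ((Pl.Laws.M_iff_ge hL _).1 hT')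
    rwa [sub_sub_sub_cancel_right] at e
  have v1 : p.Ge 1 (W - W') := by
    have e := Pl.Laws.ge_sub hL ((Pl.Laws.M_iff_ge hL _).1 hW) ((Pl.Laws.M_iff_ge hL _).1 hW')
    rwa [sub_sub_sub_cancel_right] at e
  have hO : ∀ f : K, p.M (f - algebraMap k K t0) → p.Ge 0 f := by
    intro f hf
    have e := Pl.Laws.ge_add hL
      (Pl.Laws.ge_mono hL ((Pl.Laws.M_iff_ge hL _).1 hf) (show (0 : ℤ) ≤ 1 by norm_num))
      (Pl.Laws.ge_const hL t0)
    rwa [sub_add_cancel] at e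
  have hTT : p.Ge 0 (T + T') := Pl.Laws.ge_add hL (hO T hT) (hO T' hT')
  have g2 : p.Ge 0 (2 : K) := by
    have e := Pl.Laws.ge_const hL (2 : k)
    rwa [map_ofNat] at e
  have g3 : p.Ge 0 (3 : K) := by
    have e := Pl.Laws.ge_const hL (3 : k)
    rwa [map_ofNat] at e
  have du : δ (T - T') = 2 * A * (W - W') := by
    rw [map_sub, a1, b1]
    ring
  have dv : δ (W - W') = 3 * A * ((T - T') * (T + T')) := by
    rw [map_sub, a2, b2]
    ring
  -- the key estimate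
  have key : ∀ u v w c : K, p.Ge 1 u → u ≠ 0 → p.Ge 0 w → p.Ge 0 c →
      δ u = c * A * (v * w) → v ≠ 0 ∧ p.ord v < p.ord u := by
    intro u v w c hu hu0 hwO hc he
    have hu1 : 1 ≤ p.ord u := (Pl.Laws.ge_iff hL _ _ hu0).1 hu
    obtain ⟨k1, k2⟩ := d4 δ hδ p u (by omega)
    have hv0 : v ≠ 0 := by
      rintro rfl
      apply k1
      rw [he]
      ring
    refine ⟨hv0, ?_⟩
    have k3 : p.Ge (p.ord v) v := Or.inr le_rfl
    have k4 := Pl.Laws.ge_mul hL (Pl.Laws.ge_mul hL hc hAr) (Pl.Laws.ge_mul hL k3 hwO)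
    rw [← he, Pl.Laws.ge_iff hL _ _ k1, k2] at k4
    omega
  by_contra hne
  by_cases hu0 : T - T' = 0
  · have hv0 : W - W' ≠ 0 := fun hv0 => hne ⟨sub_eq_zero.1 hu0, sub_eq_zero.1 hv0⟩
    exact (key _ _ _ _ v1 hv0 hTT g3 dv).1 hu0
  · obtain ⟨hv0, hlt⟩ := key _ (W - W') 1 2 u1 hu0
      (by have e := Pl.Laws.ge_const hL (1 : k); rwa [map_one] at e) g2 (by rw [du, mul_one])
    obtain ⟨-, hlt'⟩ := key _ _ _ _ v1 hv0 hTT g3 dv
    omega

end Pool.Agent.Helper8.SPV
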