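import Pool.Agent.Helper8.SPV.Stmts
import Pool.Agent.Helper8.SPV.PLib

set_option autoImplicit false

/-! # CODIM: codimension of the conditions of having no pole -/

namespace Pool.Agent.Helper8.SPV

variable {k K : Type} [Field k] [Field K] [Algebra k K]

/-- the elements whose image has order at least `n` -/
def CODIM_ge (p : Pl k K) (hL : p.Laws) (φ : K →ₗ[k] K) (n : ℤ) : Submodule k K where
  carrier := {F | p.Ge n (φ F)}
  add_mem' := fun {a b} ha hb => by
    change p.Ge n (φ (a + b))
    rw [map_add]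
    exact Pl.Laws.ge_add hL ha hb
  zero_mem' := by
    change p.Ge n (φ 0)
    rw [map_zero]
    exact Pl.Laws.ge_zero hL n
  smul_mem' := fun c a ha => by
    change p.Ge n (φ (c • a))
    rw [map_smul]
    exact Pl.Laws.ge_smul hL c ha

theorem CODIM_one (p : Pl k K) (hL : p.Laws) (φ : K →ₗ[k] K) (n : ℤ) (W : Submodule k K)
    [FiniteDimensional k W] (hW : ∀ F ∈ W, p.Ge n (φ F)) :
    Module.finrank k W ≤ Module.finrank k (W ⊓ CODIM_ge p hL φ (n + 1) : Submodule k K) + 1 := by
  by_cases hall : ∀ F ∈ W, p.Ge (n + 1) (φ F)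
  · have : W ⊓ CODIM_ge p hL φ (n + 1) = W := inf_eq_left.2 hall
    rw [this]
    exact Nat.le_succ _
  · push Not at hall
    obtain ⟨F0, hF0, hn⟩ := hall
    have hφ0 : φ F0 ≠ 0 := fun h => hn (Or.inl h)
    have hord : p.ord (φ F0) = n := by
      have h1 := (Pl.Laws.ge_iff hL n (φ F0) hφ0).1 (hW F0 hF0)
      have h2 : ¬ n + 1 ≤ p.ord (φ F0) := fun h => hn (Or.inr h)
      omega
    have hle : W ≤ (W ⊓ CODIM_ge p hL φ (n + 1)) ⊔ Submodule.span k {F0} := by
      intro F hF
      have hinv : p.Ge (-n) (φ F0)⁻¹ := Or.inr (by rw [Pl.Laws.ord_inv hL, hord])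
      have h3 := Pl.Laws.ge_mul hL (hW F hF) hinv
      rw [add_neg_cancel] at h3
      obtain ⟨c, hc⟩ := Pl.Laws.res_ge hL _ h3
      have h4 : p.Ge (n + 1) (φ (F - c • F0)) := by
        have h5 := Pl.Laws.ge_mul hL hc (hW F0 hF0)
        have h6 : (φ F * (φ F0)⁻¹ - algebraMap k K c) * φ F0 = φ (F - c • F0) := by
          rw [map_sub, map_smul, Algebra.smul_def, sub_mul, mul_assoc, inv_mul_cancel₀ hφ0,
            mul_one]
        rw [h6] at h5
        exact Pl.Laws.ge_mono hL h5 (by omega)
      rw [Submodule.mem_sup]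
      exact ⟨F - c • F0, ⟨W.sub_mem hF (W.smul_mem c hF0), h4⟩, c • F0,
        Submodule.smul_mem _ _ (Submodule.mem_span_singleton_self F0), by abel⟩
    have h7 := Submodule.finrank_mono hle
    have h8 := Submodule.finrank_add_le_finrank_add_finrank
      (W ⊓ CODIM_ge p hL φ (n + 1)) (Submodule.span k {F0})
    have h9 : Module.finrank k (Submodule.span k {F0}) ≤ 1 := by
      have := finrank_span_le_card (R := k) ({F0} : Set K)
      simpa using this
    omega

theorem CODIM_many (p : Pl k K) (hL : p.Laws) (φ : K →ₗ[k] K) (r : ℕ) (n : ℤ)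
    (W : Submodule k K) [FiniteDimensional k W] (hW : ∀ F ∈ W, p.Ge n (φ F)) :
    Module.finrank k W ≤
      Module.finrank k (W ⊓ CODIM_ge p hL φ (n + r) : Submodule k K) + r := by
  induction r with
  | zero =>
    have : W ⊓ CODIM_ge p hL φ (n + (0 : ℕ)) = W := by
      refine inf_eq_left.2 (fun F hF => ?_)
      change p.Ge (n + (0 : ℕ)) (φ F)
      simpa using hW F hF
    rw [this]
    exact le_rfl
  | succ r ih =>
    have h1 := CODIM_one p hL φ (n + r) (W ⊓ CODIM_ge p hL φ (n + r)) (fun F hF => hF.2)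
    have h2 : (W ⊓ CODIM_ge p hL φ (n + r)) ⊓ CODIM_ge p hL φ (n + r + 1) =
        W ⊓ CODIM_ge p hL φ (n + (r + 1 : ℕ)) := by
      ext F
      constructor
      · rintro ⟨⟨a, _⟩, c⟩
        exact ⟨a, by push_cast; rw [← add_assoc]; exact c⟩
      · rintro ⟨a, c⟩
        have c' : p.Ge (n + r + 1) (φ F) := by
          have : p.Ge (n + (r + 1 : ℕ)) (φ F) := c
          push_cast at this
          rwa [← add_assoc] at this
        exact ⟨⟨a, Pl.Laws.ge_mono hL c' (by omega)⟩, c'⟩
    rw [h2] at h1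
    omega

theorem st_CODIM (h1 : ST_PL1) : ST_CODIM := by
  classical
  intro k K _ _ _ _ _ hff V hV φ S a r hr hVS V' hV'
  have key : ∀ S : Finset (Pl k K), (∀ p ∈ S, 0 ≤ r p) →
      (∀ F ∈ V, ∀ p ∈ S, p.Ge (a p - r p) (φ F)) →
      ∀ V' : Submodule k K, (∀ F, F ∈ V' ↔ F ∈ V ∧ ∀ p ∈ S, p.Ge (a p) (φ F)) →
        (Module.finrank k V : ℤ) ≤ Module.finrank k V' + ∑ p ∈ S, r p := by
    intro S
    induction S using Finset.induction_on with
    | empty =>
      intro _ _ V' hV'
      have : V' = V := by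
        ext F
        rw [hV']
        simp
      rw [this]
      simp
    | insert q S hq ih =>
      intro hr hVS V' hV'
      have hL : ∀ p : Pl k K, p.Laws := fun p => h1 k K hff p
      set W : Submodule k K := V ⊓ ⨅ p ∈ S, CODIM_ge p (hL p) φ (a p) with hW
      have hWm : ∀ F, F ∈ W ↔ F ∈ V ∧ ∀ p ∈ S, p.Ge (a p) (φ F) := by
        intro F
        rw [hW, Submodule.mem_inf, Submodule.mem_iInf]
        simp only [Submodule.mem_iInf]
        rfl
      have h2 := ih (fun p hp => hr p (Finset.mem_insert_of_mem hp))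
        (fun F hF p hp => hVS F hF p (Finset.mem_insert_of_mem hp)) W hWm
      have hfd : FiniteDimensional k W := Submodule.finiteDimensional_of_le inf_le_left
      obtain ⟨m, hm⟩ := Int.eq_ofNat_of_zero_le (hr q (Finset.mem_insert_self q S))
      have h3 := CODIM_many q (hL q) φ m (a q - r q) W
        (fun F hF => hVS F ((hWm F).1 hF).1 q (Finset.mem_insert_self q S))
      have h4 : W ⊓ CODIM_ge q (hL q) φ (a q - r q + m) = V' := by
        ext F
        rw [Submodule.mem_inf, hWm, hV']
        have h5 : F ∈ CODIM_ge q (hL q) φ (a q - r q + m) ↔ q.Ge (a q) (φ F) := by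
          rw [hm, sub_add_cancel]
          rfl
        rw [h5]
        constructor
        · rintro ⟨⟨x1, x2⟩, x3⟩
          refine ⟨x1, fun p hp => ?_⟩
          rcases Finset.mem_insert.1 hp with rfl | hp
          · exact x3
          · exact x2 p hp
        · rintro ⟨x1, x2⟩
          exact ⟨⟨x1, fun p hp => x2 p (Finset.mem_insert_of_mem hp)⟩,
            x2 q (Finset.mem_insert_self q S)⟩
      rw [h4] at h3
      rw [Finset.sum_insert hq, hm]
      have h6 : (Module.finrank k W : ℤ) ≤ Module.finrank k V' + m := by exact_mod_cast h3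
      have h7 : ((Int.ofNat m : ℤ)) = (m : ℤ) := rfl
      linarith
  exact key S hr hVS V' hV'

end Pool.Agent.Helper8.SPV
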