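import Pool.Agent.Helper8.SPV.Stmts
import Pool.Agent.Helper8.SPV.PLib

set_option autoImplicit false

/-! # DER1: derivations over `k` of a function field of one variable -/

namespace Pool.Agent.Helper8.SPV

open IntermediateField (adjoin)

/-- an algebraic element is a constant -/
theorem DER1_const {k K : Type} [Field k] [IsAlgClosed k] [Field K] [Algebra k K] (f : K)
    (hf : ¬ Transcendental k f) : ∃ c : k, f = algebraMap k K c := by
  have h1 : IsAlgebraic k f := not_not.1 hf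
  have h2 : IsIntegral k f := h1.isIntegral
  obtain ⟨c, hc⟩ := minpoly.mem_range_of_degree_eq_one k f
    (IsAlgClosed.degree_eq_one_of_irreducible k (minpoly.irreducible h2))
  exact ⟨c, hc.symm⟩

theorem DER1_ker (hfft : ST_FFT) (halg : ST_DERALG) {k K : Type} [Field k] [IsAlgClosed k]
    [CharZero k] [Field K] [Algebra k K] (hff : IsFF k K) (δ : Derivation k K K) (hδ : δ ≠ 0)
    (f : K) (hf : δ f = 0) : ∃ c : k, f = algebraMap k K c := by
  by_cases ht : Transcendental k f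
  · exfalso
    apply hδ
    have := hfft k K hff f ht
    have : CharZero (adjoin k {f}) := charZero_of_injective_algebraMap
      (algebraMap k (adjoin k {f})).injective
    have h0 : ∀ a ∈ adjoin k {f}, δ a = 0 := by
      intro a ha
      induction ha using IntermediateField.adjoin_induction with
      | mem x hx => rw [Set.mem_singleton_iff.1 hx]; exact hf
      | algebraMap x => exact Derivation.map_algebraMap δ x
      | add x y _ _ hx hy => rw [map_add, hx, hy, add_zero]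
      | inv x _ hx => rw [Derivation.leibniz_inv, hx, smul_zero]
      | mul x y _ _ hx hy => rw [Derivation.leibniz, hx, hy, smul_zero, smul_zero, add_zero]
    let L : K →ₗ[adjoin k {f}] K :=
      { toFun := fun x => δ x
        map_add' := fun x y => map_add δ x y
        map_smul' := fun a x => by
          rw [RingHom.id_apply, Algebra.smul_def, Algebra.smul_def, Derivation.leibniz,
            smul_eq_mul, smul_eq_mul]
          rw [show δ (algebraMap (adjoin k {f}) K a) = 0 from h0 a a.2, mul_zero, add_zero] }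
    let D : Derivation (adjoin k {f}) K K := Derivation.mk' L fun a b => δ.leibniz a b
    ext x
    have h1 := halg.1 (adjoin k {f}) K D x (Algebra.IsAlgebraic.isAlgebraic x)
    exact h1
  · exact DER1_const f ht

theorem DER1_dim (hfft : ST_FFT) (halg : ST_DERALG) {k K : Type} [Field k] [IsAlgClosed k]
    [CharZero k] [Field K] [Algebra k K] (hff : IsFF k K) (δ δ' : Derivation k K K) (hδ : δ ≠ 0) :
    ∃ g : K, ∀ f, δ' f = g * δ f := by
  obtain ⟨x, hx, hxf⟩ := hff
  have hnc : ∀ c : k, x ≠ algebraMap k K c := by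
    rintro c rfl
    exact hx (isAlgebraic_algebraMap c)
  have h1 : δ x ≠ 0 := by
    intro h
    obtain ⟨c, hc⟩ := DER1_ker hfft halg ⟨x, hx, hxf⟩ δ hδ x h
    exact hnc c hc
  refine ⟨δ' x / δ x, fun f => ?_⟩
  have h2 : (δ' - (δ' x / δ x) • δ) x = 0 := by
    rw [Derivation.sub_apply, Derivation.smul_apply, smul_eq_mul, div_mul_cancel₀ _ h1, sub_self]
  have h3 : δ' - (δ' x / δ x) • δ = 0 := by
    by_contra h
    obtain ⟨c, hc⟩ := DER1_ker hfft halg ⟨x, hx, hxf⟩ _ h x h2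
    exact hnc c hc
  have h4 : (δ' - (δ' x / δ x) • δ) f = 0 := by rw [h3]; rfl
  rw [Derivation.sub_apply, Derivation.smul_apply, smul_eq_mul, sub_eq_zero] at h4
  exact h4

theorem DER1_z (hfft : ST_FFT) (halg : ST_DERALG) {k K : Type} [Field k] [IsAlgClosed k]
    [CharZero k] [Field K] [Algebra k K] (hff : IsFF k K) (δ : Derivation k K K) (hδ : δ ≠ 0)
    (p : Pl k K) (hL : p.Laws) (f : K) (hf : p.ord f ≠ 0) : δ f ≠ 0 := by
  intro h
  obtain ⟨c, rfl⟩ := DER1_ker hfft halg hff δ hδ f h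
  exact hf (hL.ord_const c)

theorem DER1_ord (hfft : ST_FFT) (halg : ST_DERALG) (hreg : ST_REG) {k K : Type} [Field k]
    [IsAlgClosed k] [CharZero k] [Field K] [Algebra k K] (hff : IsFF k K) (δ : Derivation k K K)
    (hδ : δ ≠ 0) (p : Pl k K) (hL : p.Laws) (f : K) (hf : f ≠ 0) :
    ∃ v : K, p.Ge (p.ord f) v ∧
      δ f = δ p.z * ((p.ord f : K) * (f * p.z ^ (-p.ord f)) * p.z ^ (p.ord f - 1) + v) := by
  have hz1 : p.ord p.z ≠ 0 := by rw [hL.ord_z]; exact one_ne_zero
  have hδz : δ p.z ≠ 0 := DER1_z hfft halg hff δ hδ p hL p.z hz1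
  have hz0 : p.z ≠ 0 := hL.unif.1
  set n := p.ord f with hn
  set u := f * p.z ^ (-n) with hu
  have hu0 : u ≠ 0 := mul_ne_zero hf (zpow_ne_zero _ hz0)
  have hu1 : p.ord u = 0 := by
    rw [hu, hL.ord_mul _ _ hf (zpow_ne_zero _ hz0), Pl.Laws.ord_zpow hL, hL.ord_z]
    omega
  have huO : u ∈ p.O := (Pl.Laws.mem_iff_ge hL u).2 (Or.inr hu1.ge)
  let D : Derivation ℤ K K := ((δ p.z)⁻¹ • δ).restrictScalars ℤ
  have hD : ∀ a, D a = (δ p.z)⁻¹ * δ a := fun a => rfl
  have hDu : D u ∈ p.O := by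
    refine hreg k K hff p D p.z (fun c => ?_) hL.unif ?_ u huO
    · rw [hD, Derivation.map_algebraMap, mul_zero]
      exact p.O.zero_mem
    · rw [hD, inv_mul_cancel₀ hδz]
      exact p.O.one_mem
  refine ⟨p.z ^ n * D u, ?_, ?_⟩
  · have h1 : p.Ge n (p.z ^ n) := Or.inr (by rw [Pl.Laws.ord_zpow hL, hL.ord_z, mul_one])
    have h2 := Pl.Laws.ge_mul hL h1 ((Pl.Laws.mem_iff_ge hL _).1 hDu)
    rwa [add_zero] at h2
  · have hfu : f = u * p.z ^ n := by
      rw [hu, mul_assoc, ← zpow_add₀ hz0, neg_add_cancel, zpow_zero, mul_one]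
    have h3 : δ f = u * ((n : K) * (p.z ^ (n - 1) * δ p.z)) + p.z ^ n * δ u := by
      conv_lhs => rw [hfu, Derivation.leibniz, Derivation.leibniz_zpow]
      simp only [smul_eq_mul, zsmul_eq_mul]
    rw [h3, hD]
    field_simp

theorem st_DER1 (h1 : ST_PL1) (hreg : ST_REG) (hfft : ST_FFT) (halg : ST_DERALG) : ST_DER1 := by
  intro k K _ _ _ _ _ hff
  refine ⟨fun δ hδ f hf => DER1_ker hfft halg hff δ hδ f hf,
    fun δ δ' hδ => DER1_dim hfft halg hff δ δ' hδ, ?_, ?_⟩
  · intro δ hδ p f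
    have hL := h1 k K hff p
    have hz1 : p.ord p.z ≠ 0 := by rw [hL.ord_z]; exact one_ne_zero
    have hz0 : p.z ≠ 0 := hL.unif.1
    have hδz : δ p.z ≠ 0 := DER1_z hfft halg hff δ hδ p hL p.z hz1
    by_cases hf : f = 0
    · rw [hf, map_zero]
      exact Pl.Laws.ge_zero hL _
    obtain ⟨v, hv, he⟩ := DER1_ord hfft halg hreg hff δ hδ p hL f hf
    rw [he]
    have e1 : p.Ge (p.ord (δ p.z)) (δ p.z) := Or.inr le_rfl
    have e2 : p.Ge 0 ((p.ord f : ℤ) : K) := by
      have := Pl.Laws.ge_const hL ((p.ord f : ℤ) : k)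
      rwa [map_intCast] at this
    have e3 : p.Ge 0 (f * p.z ^ (-p.ord f)) := by
      refine Or.inr ?_
      rw [hL.ord_mul _ _ hf (zpow_ne_zero _ hz0), Pl.Laws.ord_zpow hL, hL.ord_z]
      omega
    have e4 : p.Ge (p.ord f - 1) (p.z ^ (p.ord f - 1)) :=
      Or.inr (by rw [Pl.Laws.ord_zpow hL, hL.ord_z, mul_one])
    have e5 := Pl.Laws.ge_mul hL (Pl.Laws.ge_mul hL e2 e3) e4
    have e6 := Pl.Laws.ge_mul hL e1 (Pl.Laws.ge_add hL (Pl.Laws.ge_mono hL e5 (by omega))
      (Pl.Laws.ge_mono hL hv (show p.ord f - 1 ≤ p.ord f by omega)))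
    refine Pl.Laws.ge_mono hL e6 ?_
    unfold Pl.rr
    omega
  · intro δ hδ p f hf
    have hL := h1 k K hff p
    have hz1 : p.ord p.z ≠ 0 := by rw [hL.ord_z]; exact one_ne_zero
    have hz0 : p.z ≠ 0 := hL.unif.1
    have hδz : δ p.z ≠ 0 := DER1_z hfft halg hff δ hδ p hL p.z hz1
    have hf0 : f ≠ 0 := by
      rintro rfl
      exact hf Pl.ord_zero
    refine ⟨DER1_z hfft halg hff δ hδ p hL f hf, ?_⟩
    obtain ⟨v, hv, he⟩ := DER1_ord hfft halg hreg hff δ hδ p hL f hf0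
    have e0 : ((p.ord f : ℤ) : K) ≠ 0 := by
      have h5 : ((p.ord f : ℤ) : k) ≠ 0 := Int.cast_ne_zero.2 hf
      have h6 : algebraMap k K ((p.ord f : ℤ) : k) ≠ 0 := (map_ne_zero _).2 h5
      rwa [map_intCast] at h6
    have e1 : p.ord ((p.ord f : ℤ) : K) = 0 := by
      have := hL.ord_const ((p.ord f : ℤ) : k)
      rwa [map_intCast] at this
    have e2 : f * p.z ^ (-p.ord f) ≠ 0 := mul_ne_zero hf0 (zpow_ne_zero _ hz0)
    have e3 : p.ord (f * p.z ^ (-p.ord f)) = 0 := by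
      rw [hL.ord_mul _ _ hf0 (zpow_ne_zero _ hz0), Pl.Laws.ord_zpow hL, hL.ord_z]
      omega
    have e4 : (p.z ^ (p.ord f - 1)) ≠ 0 := zpow_ne_zero _ hz0
    have e5 : p.ord (p.z ^ (p.ord f - 1)) = p.ord f - 1 := by
      rw [Pl.Laws.ord_zpow hL, hL.ord_z, mul_one]
    have e6 : ((p.ord f : ℤ) : K) * (f * p.z ^ (-p.ord f)) * p.z ^ (p.ord f - 1) ≠ 0 :=
      mul_ne_zero (mul_ne_zero e0 e2) e4
    have e7 : p.ord (((p.ord f : ℤ) : K) * (f * p.z ^ (-p.ord f)) * p.z ^ (p.ord f - 1)) =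
        p.ord f - 1 := by
      rw [hL.ord_mul _ _ (mul_ne_zero e0 e2) e4, hL.ord_mul _ _ e0 e2, e1, e3, e5]
      omega
    have e8 : v = 0 ∨ p.ord (((p.ord f : ℤ) : K) * (f * p.z ^ (-p.ord f)) *
        p.z ^ (p.ord f - 1)) < p.ord v := by
      rcases hv with h | h
      · exact Or.inl h
      · exact Or.inr (by rw [e7]; omega)
    obtain ⟨e9, e10⟩ := Pl.Laws.ord_add_of_lt hL _ v e6 e8
    rw [he, hL.ord_mul _ _ hδz e9, e10, e7]
    unfold Pl.rr
    omega

end Pool.Agent.Helper8.SPV
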