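import Pool.Agent.Helper8.SPV.Stmts
import Pool.Agent.Helper8.SPV.PLib

set_option autoImplicit false

/-! # KAPIND: the degree of the canonical divisor does not depend on the derivation -/

namespace Pool.Agent.Helper8.SPV

theorem st_KAPIND (h1 : ST_PL1) (h2 : ST_PL2) (h3 : ST_PL3) (h7 : ST_PL7) (hd : ST_DER1) :
    ST_KAPIND := by
  intro k K _ _ _ _ _ hff δ δ' hδ hδ'
  obtain ⟨-, d2, -, d4⟩ := hd k K hff
  obtain ⟨g, hg⟩ := d2 δ δ' hδ
  have hg0 : g ≠ 0 := by
    rintro rfl
    apply hδ'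
    ext x
    rw [hg, zero_mul]
    rfl
  have e1 : ∀ p : Pl k K, p.rr δ' = p.rr δ - p.ord g := by
    intro p
    have hL := h1 k K hff p
    have hz : δ p.z ≠ 0 := (d4 δ hδ p p.z (by rw [hL.ord_z]; exact one_ne_zero)).1
    unfold Pl.rr
    rw [hg, hL.ord_mul _ _ hg0 hz]
    omega
  have e2 : (Function.support fun p : Pl k K => p.rr δ).Finite := h7 k K hff δ hδ
  have e3 : (Function.support fun p : Pl k K => p.ord g).Finite := h2 k K hff g hg0
  unfold Pl.kap
  rw [finsum_congr e1, finsum_sub_distrib e2 e3, h3 k K hff g hg0, sub_zero]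

end Pool.Agent.Helper8.SPV
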