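import Pool.Agent.Helper8.SPV.Stmts
import Pool.Agent.Helper8.SPV.PLib

set_option autoImplicit false

/-! # PL3: the degree of a principal divisor is zero -/

namespace Pool.Agent.Helper8.SPV

open IntermediateField (adjoin)

theorem PL3_const {k K : Type} [Field k] [IsAlgClosed k] [Field K] [Algebra k K] (f : K)
    (hf : ¬ Transcendental k f) : ∃ c : k, f = algebraMap k K c := by
  have h1 : IsAlgebraic k f := not_not.1 hf
  have h2 : IsIntegral k f := h1.isIntegral
  obtain ⟨c, hc⟩ := minpoly.mem_range_of_degree_eq_one k f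
    (IsAlgClosed.degree_eq_one_of_irreducible k (minpoly.irreducible h2))
  exact ⟨c, hc.symm⟩

theorem PL3_adjoin {k K : Type} [Field k] [Field K] [Algebra k K] (f : K) :
    adjoin k {f⁻¹} = adjoin k {f} := by
  apply le_antisymm
  · rw [IntermediateField.adjoin_simple_le_iff]
    exact (adjoin k {f}).inv_mem (IntermediateField.mem_adjoin_simple_self k f)
  · rw [IntermediateField.adjoin_simple_le_iff]
    have := (adjoin k {f⁻¹}).inv_mem (IntermediateField.mem_adjoin_simple_self k f⁻¹)
    rwa [inv_inv] at this

theorem st_PL3 (h1 : ST_PL1) (h2 : ST_PL2) (h4 : ST_PL4) : ST_PL3 := by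
  intro k K _ _ _ _ _ hff f hf
  by_cases ht : Transcendental k f
  · have ht' : Transcendental k f⁻¹ := fun h => ht (by have := h.inv; rwa [inv_inv] at this)
    have e1 := h4 k K hff f ht
    have e2 := h4 k K hff f⁻¹ ht'
    rw [PL3_adjoin f, ← e1] at e2
    unfold Pl.poles at e2
    have e3 : ∀ p : Pl k K, p.ord f = max 0 (-p.ord f⁻¹) - max 0 (-p.ord f) := by
      intro p
      rw [Pl.Laws.ord_inv (h1 k K hff p)]
      omega
    have e4 : (Function.support fun p : Pl k K => max 0 (-p.ord f)).Finite := by
      refine (h2 k K hff f hf).subset fun p hp => ?_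
      rw [Function.mem_support] at hp
      rw [Set.mem_ofPred_eq]
      intro h
      apply hp
      rw [h]
      simp
    have e5 : (Function.support fun p : Pl k K => max 0 (-p.ord f⁻¹)).Finite := by
      refine (h2 k K hff f⁻¹ (inv_ne_zero hf)).subset fun p hp => ?_
      rw [Function.mem_support] at hp
      rw [Set.mem_ofPred_eq]
      intro h
      apply hp
      rw [h]
      simp
    rw [finsum_congr e3, finsum_sub_distrib e5 e4, e2, sub_self]
  · obtain ⟨c, rfl⟩ := PL3_const f ht
    have e1 : ∀ p : Pl k K, p.ord (algebraMap k K c) = 0 := fun p => (h1 k K hff p).ord_const c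
    rw [finsum_congr e1, finsum_zero]

end Pool.Agent.Helper8.SPV
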