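import Pool.Agent.Helper8.SPV.Stmts
import Pool.Agent.Helper8.SPV.PLib

set_option autoImplicit false

/-! # REG: regularity of derivations at a place -/

namespace Pool.Agent.Helper8.SPV

theorem REG_alg {k K : Type} [Field k] [Field K] [Algebra k K] {p : Pl k K} (hL : p.Laws)
    (D : Derivation ℤ K K) (hc : ∀ c : k, D (algebraMap k K c) ∈ p.O) (S : Finset K)
    (hS : ∀ f ∈ S, f ∈ p.O) (N : ℕ) (hN : ∀ f ∈ S, p.Ge (-(N : ℤ)) (D f)) (a : K)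
    (ha : a ∈ Algebra.adjoin k (S : Set K)) : a ∈ p.O ∧ p.Ge (-(N : ℤ)) (D a) := by
  have h0 : ∀ f ∈ p.O, p.Ge (-(N : ℤ)) f := fun f hf =>
    Pl.Laws.ge_mono hL ((Pl.Laws.mem_iff_ge hL f).1 hf) (by omega)
  induction ha using Algebra.adjoin_induction with
  | mem x hx => exact ⟨hS x hx, hN x hx⟩
  | algebraMap c => exact ⟨p.mem c, h0 _ (hc c)⟩
  | add x y _ _ hx hy =>
    rw [map_add]
    exact ⟨p.O.add_mem _ _ hx.1 hy.1, Pl.Laws.ge_add hL hx.2 hy.2⟩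
  | mul x y _ _ hx hy =>
    refine ⟨p.O.mul_mem _ _ hx.1 hy.1, ?_⟩
    rw [Derivation.leibniz, smul_eq_mul, smul_eq_mul]
    have h1 := Pl.Laws.ge_mul hL ((Pl.Laws.mem_iff_ge hL x).1 hx.1) hy.2
    have h2 := Pl.Laws.ge_mul hL ((Pl.Laws.mem_iff_ge hL y).1 hy.1) hx.2
    rw [zero_add] at h1 h2
    exact Pl.Laws.ge_add hL h1 h2

theorem st_REG (h1 : ST_PL1) (h2 : ST_PLFT) : ST_REG := by
  intro k K _ _ _ _ _ hff p D z hc hz hDz
  have hL := h1 k K hff p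
  obtain ⟨S, hS, hS2⟩ := h2 k K hff p
  -- a bound for the poles
  obtain ⟨N, hN⟩ : ∃ N : ℕ, ∀ f ∈ S, p.Ge (-(N : ℤ)) (D f) := by
    refine ⟨S.sup fun f => (p.ord (D f)).natAbs, fun f hf => Or.inr ?_⟩
    have h3 : (p.ord (D f)).natAbs ≤ S.sup fun f => (p.ord (D f)).natAbs :=
      Finset.le_sup (f := fun f => (p.ord (D f)).natAbs) hf
    omega
  have hbound : ∀ f ∈ p.O, p.Ge (-(N : ℤ)) (D f) := by
    intro f hf
    obtain ⟨a, ha, d, hd, hU, hfd⟩ := hS2 f hf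
    obtain ⟨ha1, ha2⟩ := REG_alg hL D hc S hS N hN a ha
    obtain ⟨hd1, hd2⟩ := REG_alg hL D hc S hS N hN d hd
    have hd0 : d ≠ 0 := hU.1
    have h3 : D f = d⁻¹ * (D a - f * D d) := by
      rw [← hfd, Derivation.leibniz, smul_eq_mul, smul_eq_mul]
      field_simp
      ring
    rw [h3]
    have h4 := Pl.Laws.ge_mul hL ((Pl.Laws.mem_iff_ge hL f).1 hf) hd2
    rw [zero_add] at h4
    have h5 := Pl.Laws.ge_mul hL ((Pl.Laws.mem_iff_ge hL d⁻¹).1 hU.2.2)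
      (Pl.Laws.ge_sub hL ha2 h4)
    rwa [zero_add] at h5
  have hstep : ∀ m : ℕ, (∀ f ∈ p.O, p.Ge (-((m + 1 : ℕ) : ℤ)) (D f)) →
      ∀ f ∈ p.O, p.Ge (-(m : ℤ)) (D f) := by
    intro m hm f hf
    obtain ⟨c, hcM⟩ := hL.res f hf
    have hz0 : z ≠ 0 := hz.1
    have hh : (f - algebraMap k K c) / z ∈ p.O := hz.2.2 _ hcM
    set h := (f - algebraMap k K c) / z with hdef
    have hf2 : f = algebraMap k K c + z * h := by
      rw [hdef]
      field_simp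
      ring
    have h0 : ∀ g ∈ p.O, p.Ge (-(m : ℤ)) g := fun g hg =>
      Pl.Laws.ge_mono hL ((Pl.Laws.mem_iff_ge hL g).1 hg) (by omega)
    rw [hf2, map_add, Derivation.leibniz, smul_eq_mul, smul_eq_mul]
    have e1 : p.Ge (-(m : ℤ)) (h * D z) := h0 _ (p.O.mul_mem _ _ hh hDz)
    have e2 : p.Ge (-(m : ℤ)) (z * D h) := by
      have h4 := Pl.Laws.ge_mul hL ((Pl.Laws.M_iff_ge hL z).1 hz.2.1) (hm h hh)
      exact Pl.Laws.ge_mono hL h4 (by push_cast; omega)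
    exact Pl.Laws.ge_add hL (h0 _ (hc c)) (Pl.Laws.ge_add hL e2 e1)
  have hfin : ∀ m : ℕ, (∀ f ∈ p.O, p.Ge (-(m : ℤ)) (D f)) → ∀ f ∈ p.O, p.Ge 0 (D f) := by
    intro m
    induction m with
    | zero => intro h f hf; simpa using h f hf
    | succ m ih => intro h; exact ih (hstep m h)
  intro f hf
  exact (Pl.Laws.mem_iff_ge hL _).2 (hfin N hbound f hf)

end Pool.Agent.Helper8.SPV
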